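import Pool.Agent.Helper45.U4.All

/-!
# Smallest point sets meeting all generators of `U(2n+1,4)`

The minimum is `35 * 4 ^ (n - 2)` for all `n ≥ 2`.

Idea: in `U(5,4)` a set of `33 + j` points, `j ≤ 2`, that meets every generator is, counted in the
neighbours of a generator, an ovoid with `j` heavy points; the types with `0`, `1`, `2` (not
perpendicular) heavy points are excluded by search trees in coordinates, after the classification
of the ovoids of `H(3,4)`. In `U(7,4)` a set of `139` points has ten extra points (with
multiplicities); they are pairwise perpendicular because of the third type, and this leads to a set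
of eleven points of `PG(3,4)` meeting every plane in `0` or at least `3` points, which does not exist.
-/

set_option autoImplicit false

open Module
open scoped LinearAlgebra.Projectivization

namespace Pool.Agent.Results.MP_a1f43d_co.HermitianFour

open Pool.Agent.Helper53.PB

/-- Let `F` be a field with four elements, `n ≥ 2`, and `B` a non-degenerate Hermitian form on a
vector space of dimension `2 n + 2` over `F`. The smallest size of a set of points of the Hermitian
polar space `U(2n+1,4)` that meets every generator is `35 * 4 ^ (n - 2)`. -/
theorem result (F : Type) [Field F] (hF : Nat.card F = 4) (V : Type) [AddCommGroup V] [Module F V]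
    [FiniteDimensional F V] (σ : F →+* F) (invol : ∀ a, σ (σ a) = a) (ne : ∃ a, σ a ≠ a)
    (B : V →ₗ[F] V →ₛₗ[σ] F) (herm : ∀ x y, B y x = σ (B x y))
    (nondeg : ∀ x, (∀ y, B x y = 0) → x = 0) (n : ℕ) (hn : 2 ≤ n) (hV : finrank F V = 2 * n + 2) :
    IsLeast {k | ∃ T : Finset (ℙ F V), Blocking (Form.hermitian σ invol ne B herm nondeg) T ∧
      T.card = k} (35 * 4 ^ (n - 2)) :=
  Pool.Agent.Helper45.U4.u4_final F hF V σ invol ne B herm nondeg n hn hV

end Pool.Agent.Results.MP_a1f43d_co.HermitianFour
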