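import Pool.Agent.Helper13.HE.Main

/-!
# Smallest point sets meeting all generators of `Q^+(2n+1,q)`, `q` even

For `n ≥ 4` and every even `q` the minimum is `q ^ n + q ^ (n - 3)`, attained by cones over ovoids of
`Q^+(7,q)`.

Idea of the lower bound for `n = 4`, `q = 2 ^ h`: let `T` be a smallest set meeting all generators and
suppose `|T| = q^4 + 1 + j` with `j ≤ q - 2`. There are heavy points `R` with masses `m R`, of total mass
`j`, such that every generator contains one more point of `T` than its mass. If the vector `u` is
perpendicular to no heavy point, the points of `T` in the hyperplane `u^⊥` are pairwise not perpendicular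
and a rank bound in the symplectic space `u^⊥ / u` of dimension 8 gives at most `8^h + 1 = q^3 + 1` of
them: `n(u) (q^3 + 1 - n(u)) ≥ 0`. The sum of this function over all these `u` is evaluated by sieving
the hyperplanes of the heavy points; the main term is negative, and the error terms involve the
numbers of points of `T` in the subspaces of dimensions 3, 5, 7, 9 spanned by heavy points. With the
bound of Caro and Wei (`t + 2 + 2 (q - 1 - j) ≤ 3 (5/4)^h + ...` for the number `t` of heavy points) the
sum is negative for all `q ≥ 16`, a contradiction.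
-/

set_option autoImplicit false

open Module
open scoped LinearAlgebra.Projectivization

namespace Pool.Agent.Results.MP_a1f43d_co.HyperbolicEven

open Pool.Agent.Helper53.PB

universe u v

/-- Let `F` be a finite field of characteristic two with `q` elements, `n ≥ 4`, and `Q` a non-degenerate
quadratic form on a vector space of dimension `2 n + 2` over `F` that vanishes on a subspace of
dimension `n + 1`. The smallest size of a set of points of the hyperbolic quadric `Q^+(2n+1,q)` that
meets every generator is `q ^ n + q ^ (n - 3)`. -/
theorem result (F : Type u) [Field F] [Finite F] [CharP F 2] (V : Type v)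
    [AddCommGroup V] [Module F V] [FiniteDimensional F V] (Q : QuadraticForm F V)
    (nondeg : ∀ x, Q x = 0 → (∀ y, QuadraticMap.polar Q x y = 0) → x = 0) (n : ℕ) (hn : 4 ≤ n)
    (hV : finrank F V = 2 * n + 2)
    (hyp : ∃ U : Submodule F V, (∀ x ∈ U, Q x = 0) ∧ finrank F U = n + 1) :
    IsLeast {k | ∃ T : Finset (ℙ F V), Blocking (Form.orthogonal Q nondeg) T ∧ T.card = k}
      (Nat.card F ^ n + Nat.card F ^ (n - 3)) := by
  obtain ⟨h, hF⟩ : ∃ h : ℕ, Nat.card F = 2 ^ h := by
    have hf : Fintype F := Fintype.ofFinite F
    obtain ⟨h, _, hh⟩ := FiniteField.card F 2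
    exact ⟨h, by rw [Nat.card_eq_fintype_card, hh]⟩
  obtain ⟨m, rfl⟩ : ∃ m, n = m + 4 := ⟨n - 4, by omega⟩
  have hp : HasParams (Form.orthogonal Q nondeg) (2 * (m + 5)) (m + 5) :=
    hyp_params Q nondeg (by omega) hyp
  obtain ⟨⟨T, hT, hle⟩, hge⟩ :=
    Pool.Agent.Helper13.HE.hyp_even hF m V (Form.orthogonal Q nondeg) rfl hp
  have he : m + 4 - 3 = m + 1 := by omega
  rw [he]
  constructor
  · exact ⟨T, (blocking_iff _ _).2 hT, le_antisymm hle (hge T hT)⟩
  · rintro k ⟨T', hT', rfl⟩
    exact hge T' ((blocking_iff _ _).1 hT')

end Pool.Agent.Results.MP_a1f43d_co.HyperbolicEven
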