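import Pool.Agent.Helper53.PB.Lift

/-!
# The minimum of each family of polar spaces is governed by finitely many ranks

`m(r)` denotes the smallest size of a point set meeting all generators of the classical polar
space of rank `r` in a fixed family over the field with `q` elements. For `r ≥ 2` we prove
`q m(r) - ((- m(r)) mod q) ≤ m(r + 1) ≤ q m(r)`. The upper bound is the cone construction. For the
lower bound one takes a minimum set `T`, a generator `U` meeting `T` in one point `z`, and the
weights `|T ∩ R^⊥| - m(r) ≥ 0` of the points `R ≠ z` of `U`: their total weight is small, and the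
total weight of a line of `U` is determined modulo `q`.
-/

set_option autoImplicit false

namespace Pool.Agent.Results.MP_a1f43d_co.Lifting

open Pool.Agent.Helper53.PB

universe u

/-- Let `m k` be the minimum size of a set of singular points meeting every generator of the
classical polar space of fixed kind over the finite field `F`, of vector space dimension `d + 2 k`
and rank `r + k`, where `r ≥ 2`. Then `m (k + 1) = q * m k - δ k` for a non-increasing sequence
`δ` with `0 ≤ δ 0 ≤ (- m 0) mod q`. In particular, if `q` divides `m 0`, then `m k = q ^ k * m 0`
for all `k`. -/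
theorem result (F : Type u) [Field F] [Finite F] (κ : Kind) (d r : ℕ) (hr : 2 ≤ r)
    (h : Exist F κ d r) :
    (∃ δ : ℕ → ℕ, Antitone δ ∧ (δ 0 : ℤ) ≤ (-(minBlock F κ d r : ℤ)) % (Nat.card F : ℤ) ∧
      ∀ k, minBlock F κ (d + 2 * (k + 1)) (r + (k + 1)) + δ k =
        Nat.card F * minBlock F κ (d + 2 * k) (r + k)) ∧
    (Nat.card F ∣ minBlock F κ d r →
      ∀ k, minBlock F κ (d + 2 * k) (r + k) = Nat.card F ^ k * minBlock F κ d r) :=
  ⟨minBlock_defects hr h, minBlock_stable hr h⟩

end Pool.Agent.Results.MP_a1f43d_co.Lifting
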