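import Pool.Agent.Helper45.PQ.Main

/-!
# Smallest point sets meeting all generators of `Q(2n,q)`, `q` a power of three

For `n ≥ 4` and every `q = 3 ^ h` the minimum is `q ^ n + q ^ (n - 3)`, attained by cones over ovoids of
`Q(6,q)`.

Idea of the lower bound for `n = 4`: let `T` be a smallest set meeting all generators and suppose
`|T| = q^4 + 1 + j` with `j ≤ q - 2`. There are heavy points `R` with masses `m R`, of total mass `j`, such
that every generator contains one more point of `T` than its mass. Sets of pairwise non-perpendicular
points have at most `44^h + 1` elements (rank bound in characteristic three in dimension 9), which gives,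
with weighted Caro-Wei bounds, upper bounds for the number and the masses of heavy points. For two
different heavy points `R`, `S` one shows `m R (1 + m S) + 1 ≤ q`: if they are perpendicular, by counting the
points of `T` in subspaces; if not, by the section of dimension five `R^⊥ ∩ S^⊥`: the
heavy points in it, the character matrix of an ovoid of `Q(4,q)` and a second moment. The case of one
heavy point needs a further count. The remaining numerical possibilities are excluded for `h = 2`, `h = 3`
and `h ≥ 4` separately.
-/

set_option autoImplicit false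

open Module
open scoped LinearAlgebra.Projectivization

namespace Pool.Agent.Results.MP_a1f43d_co.ParabolicThree

open Pool.Agent.Helper53.PB

universe u v

/-- Let `F` be a finite field of characteristic three with `q` elements, `n ≥ 4`, and `Q` a
non-degenerate quadratic form on a vector space of dimension `2 n + 1` over `F`. The smallest size of a
set of points of the parabolic quadric `Q(2n,q)` that meets every generator is `q ^ n + q ^ (n - 3)`. -/
theorem result (F : Type u) [Field F] [Finite F] [CharP F 3] (V : Type v)
    [AddCommGroup V] [Module F V] [FiniteDimensional F V] (Q : QuadraticForm F V)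
    (nondeg : ∀ x, Q x = 0 → (∀ y, QuadraticMap.polar Q x y = 0) → x = 0) (n : ℕ) (hn : 4 ≤ n)
    (hV : finrank F V = 2 * n + 1) :
    IsLeast {k | ∃ T : Finset (ℙ F V), Blocking (Form.orthogonal Q nondeg) T ∧ T.card = k}
      (Nat.card F ^ n + Nat.card F ^ (n - 3)) := by
  obtain ⟨h, h1, hF⟩ : ∃ h : ℕ, 1 ≤ h ∧ Nat.card F = 3 ^ h := by
    have hf : Fintype F := Fintype.ofFinite F
    obtain ⟨h, _, hh⟩ := FiniteField.card F 3
    exact ⟨h, h.pos, by rw [Nat.card_eq_fintype_card, hh]⟩
  have h2 : (2 : F) ≠ 0 := by
    intro h
    have h3 : ((2 : ℕ) : F) = 0 := by exact_mod_cast h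
    rw [CharP.cast_eq_zero_iff F 3 2] at h3
    omega
  obtain ⟨m, rfl⟩ : ∃ m, n = m + 4 := ⟨n - 4, by omega⟩
  have hp : HasParams (Form.orthogonal Q nondeg) (2 * (m + 4) + 1) (m + 4) :=
    Pool.Agent.Helper2.PQ.hPPR F h2 V Q nondeg (m + 4) hV
  obtain ⟨⟨T, hT, hle⟩, hge⟩ :=
    Pool.Agent.Helper45.PQ.par_three hF h1 m V (Form.orthogonal Q nondeg) rfl hp
  have he : m + 4 - 3 = m + 1 := by omega
  rw [he]
  constructor
  · exact ⟨T, (blocking_iff _ _).2 hT, le_antisymm hle (hge T hT)⟩
  · rintro k ⟨T', hT', rfl⟩
    exact hge T' ((blocking_iff _ _).1 hT')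

end Pool.Agent.Results.MP_a1f43d_co.ParabolicThree
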